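import Pool.Agent.N658.FF.Stm2

/-! # The energy controls the projections of disjoint groups of terms -/

set_option autoImplicit false

open scoped BigOperators InnerProductSpace Matrix Classical ComplexOrder

noncomputable section

namespace Pool.Agent.N413.FF

open Pool.Agent.TH235.PP Pool.Agent.N658.FF

/-- The selection matrix of the configurations with the values `c` off the box. -/
def sel {d R L : ℕ} (u : Site L)
    (c : {v : Site L // ∀ x : Fin R × Fin R, sh u x ≠ v} → Fin d) :
    Matrix (Fin R × Fin R → Fin d) (Site L → Fin d) ℂ := fun p s =>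
  if (∀ v : {v : Site L // ∀ x : Fin R × Fin R, sh u x ≠ v}, s v = c v) ∧
    (fun x => s (sh u x)) = p then 1 else 0

/-- The part of the term with the values `c` off the box. -/
def selP {d R L : ℕ} [NeZero L] (h : BoxOp d R) (u : Site L)
    (c : {v : Site L // ∀ x : Fin R × Fin R, sh u x ≠ v} → Fin d) :
    Matrix (Site L → Fin d) (Site L → Fin d) ℂ := (sel u c)ᴴ * h * sel u c

lemma sel_mul {d R L : ℕ} [NeZero L] (h : BoxOp d R) (u : Site L)
    (c : {v : Site L // ∀ x : Fin R × Fin R, sh u x ≠ v} → Fin d) (s t : Site L → Fin d) :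
    selP h u c s t =
      if (∀ v : {v : Site L // ∀ x : Fin R × Fin R, sh u x ≠ v}, s v = c v) ∧
        (∀ v : {v : Site L // ∀ x : Fin R × Fin R, sh u x ≠ v}, t v = c v) then
          h (fun x => s (sh u x)) (fun x => t (sh u x)) else 0 := by
  unfold selP
  rw [Matrix.mul_apply]
  simp only [Matrix.mul_apply, Matrix.conjTranspose_apply, sel]
  by_cases ht : ∀ v : {v : Site L // ∀ x : Fin R × Fin R, sh u x ≠ v}, t v = c v
  · rw [Finset.sum_eq_single (fun x => t (sh u x))]
    · rw [if_pos ⟨ht, rfl⟩, mul_one]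
      by_cases hs : ∀ v : {v : Site L // ∀ x : Fin R × Fin R, sh u x ≠ v}, s v = c v
      · rw [if_pos ⟨hs, ht⟩, Finset.sum_eq_single (fun x => s (sh u x))]
        · rw [if_pos ⟨hs, rfl⟩, star_one, one_mul]
        · intro p _ hp
          rw [if_neg (fun hh => hp hh.2.symm), star_zero, zero_mul]
        · intro hh
          exact absurd (Finset.mem_univ _) hh
      · rw [if_neg (fun hh => hs hh.1)]
        refine Finset.sum_eq_zero fun p _ => ?_
        rw [if_neg (fun hh => hs hh.1), star_zero, zero_mul]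
    · intro q _ hq
      rw [if_neg (fun hh => hq hh.2.symm), mul_zero]
    · intro hh
      exact absurd (Finset.mem_univ _) hh
  · rw [if_neg (fun hh => ht hh.2)]
    refine Finset.sum_eq_zero fun p _ => ?_
    rw [if_neg (fun hh => ht hh.1), mul_zero]

lemma term_eq_sel {d R L : ℕ} [NeZero L] (h : BoxOp d R) (u : Site L) :
    (term h u : TorOp d L) = ∑ c, selP h u c := by
  ext s t
  rw [Matrix.sum_apply]
  simp only [sel_mul]
  unfold term
  by_cases hc : ∀ v, (∀ x : Fin R × Fin R, sh u x ≠ v) → s v = t v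
  · rw [if_pos hc, Finset.sum_eq_single
      (fun v : {v : Site L // ∀ x : Fin R × Fin R, sh u x ≠ v} => s v)]
    · rw [if_pos ⟨fun _ => rfl, fun v => (hc v v.2).symm⟩]
    · intro c _ hne
      rw [if_neg]
      rintro ⟨h1, _⟩
      exact hne (funext fun v => (h1 v).symm)
    · intro hh
      exact absurd (Finset.mem_univ _) hh
  · rw [if_neg hc]
    refine (Finset.sum_eq_zero fun c _ => ?_).symm
    rw [if_neg]
    rintro ⟨h1, h2⟩
    apply hc
    intro v hv
    rw [h1 ⟨v, hv⟩, h2 ⟨v, hv⟩]

lemma term_psd {d R L : ℕ} [NeZero L] {h : BoxOp d R} (hh : h.PosSemidef) (u : Site L) :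
    (term h u).PosSemidef := by
  rw [term_eq_sel]
  exact Matrix.posSemidef_sum _ fun c _ => hh.conjTranspose_mul_mul_same (sel u c)

lemma ip_mulVec {n : Type} [Fintype n] [DecidableEq n] (A : Matrix n n ℂ) (x y : n → ℂ) :
    ip x (A *ᵥ y) = ⟪(WithLp.toLp 2 x : EuclideanSpace ℂ n),
      Matrix.toEuclideanLin A (WithLp.toLp 2 y)⟫_ℂ := by
  rw [ip_eq]
  rfl

lemma re_nonneg {n : Type} [Fintype n] [DecidableEq n] {A : Matrix n n ℂ} (hA : A.PosSemidef)
    (x : n → ℂ) : 0 ≤ (ip x (A *ᵥ x)).re := by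
  have h1 := hA.dotProduct_mulVec_nonneg x
  have h2 : ip x (A *ᵥ x) = star x ⬝ᵥ (A *ᵥ x) := rfl
  rw [h2]
  exact (Complex.le_def.1 h1).1

theorem enB : StmEn := by
  intro d R L _ hR hRL h hh Δ hΔ hgap ι _ X hX φ
  set Φ : EuclideanSpace ℂ (Site L → Fin d) := WithLp.toLp 2 φ with hΦ
  have hherm := hh.isHermitian
  have key : ∀ t, Δ * ‖Φ - pr (G (Vt h L) (X t)) Φ‖ ^ 2 ≤
      ∑ u ∈ X t, (ip φ (term h u *ᵥ φ)).re := by
    intro t
    set K := G (Vt h L) (X t) with hK
    set φt : (Site L → Fin d) → ℂ := (Φ - pr K Φ).ofLp with hφt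
    have hto : (WithLp.toLp 2 φt : EuclideanSpace ℂ (Site L → Fin d)) = Φ - pr K Φ := rfl
    have h1 := hgap (X t) φt (by
      intro ψ hψ
      rw [ip_eq, hto]
      have hmem : (WithLp.toLp 2 ψ : EuclideanSpace ℂ (Site L → Fin d)) ∈ K := by
        rw [hK]
        unfold G
        rw [Submodule.mem_iInf]
        intro u
        rw [Submodule.mem_iInf]
        intro hu
        unfold Vt
        rw [LinearMap.mem_ker]
        have : Matrix.toEuclideanLin (term h u) (WithLp.toLp 2 ψ) =
          WithLp.toLp 2 (term h u *ᵥ ψ) := rfl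
        rw [this, hψ u hu]
        rfl
      exact (Submodule.mem_orthogonal K _).1 (K.sub_starProjection_mem_orthogonal Φ) _ hmem)
    have h2 : normSq φt = ‖Φ - pr K Φ‖ ^ 2 := by
      rw [← nr_sq]
      rfl
    rw [h2] at h1
    refine h1.trans (le_of_eq ?_)
    refine Finset.sum_congr rfl fun u hu => ?_
    have hTp : Matrix.toEuclideanLin (term h u) (pr K Φ) = 0 := by
      have hm : pr K Φ ∈ K := K.starProjection_apply_mem Φ
      rw [hK] at hm
      unfold G at hm
      rw [Submodule.mem_iInf] at hm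
      have h3 := hm u
      rw [Submodule.mem_iInf] at h3
      exact LinearMap.mem_ker.1 (h3 hu)
    have hsym : (Matrix.toEuclideanLin (term h u)).IsSymmetric :=
      Matrix.isSymmetric_toEuclideanLin_iff.2 (term_herm h hherm u)
    rw [ip_mulVec, ip_mulVec, hto]
    have h4 : Matrix.toEuclideanLin (term h u) (Φ - pr K Φ) =
        Matrix.toEuclideanLin (term h u) Φ := by
      rw [map_sub, hTp, sub_zero]
    rw [h4, inner_sub_left, ← hsym (pr K Φ) Φ, hTp, inner_zero_left, sub_zero]
  have hsum : ∑ t, (∑ u ∈ X t, (ip φ (term h u *ᵥ φ)).re) ≤ (ip φ (ham h L *ᵥ φ)).re := by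
    have h1 : (ip φ (ham h L *ᵥ φ)).re = ∑ u : Site L, (ip φ (term h u *ᵥ φ)).re := by
      unfold ham
      rw [Matrix.sum_mulVec]
      unfold ip
      rw [← Complex.re_sum, Finset.sum_comm]
      congr 1
      refine Finset.sum_congr rfl fun s _ => ?_
      rw [Finset.sum_apply, Finset.mul_sum]
    rw [h1, ← Finset.sum_biUnion (fun t _ j _ htj => hX t j htj)]
    exact Finset.sum_le_sum_of_subset_of_nonneg (Finset.subset_univ _)
      fun u _ _ => re_nonneg (term_psd hh u) φ
  rw [le_div_iff₀ hΔ, Finset.sum_mul]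
  refine le_trans (Finset.sum_le_sum fun t _ => ?_) hsum
  rw [mul_comm]
  exact key t

end Pool.Agent.N413.FF
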